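import Mathlib

/-!
# The inequality for one arc
-/

set_option autoImplicit false

namespace Pool.Agent.Helper3.Thom

/-- The weight `lam p q` of a vertex with out-degree `p` and in-degree `q`. -/
def lam (p q : ℕ) : ℚ := if q < p then 1 - (q + 1) / (2 * p) else (p + 1) / (2 * q)

theorem lam_nonneg (p q : ℕ) : 0 ≤ lam p q := by
  unfold lam
  split_ifs with h
  · have hp : (0 : ℚ) < p := by
      have : 0 < p := by omega
      exact_mod_cast this
    have h1 : ((q : ℚ) + 1) ≤ p := by exact_mod_cast h
    rw [sub_nonneg, div_le_one (by positivity)]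
    linarith
  · positivity

theorem lam_le_one (p q : ℕ) : lam p q ≤ 1 := by
  unfold lam
  split_ifs with h
  · have : (0 : ℚ) ≤ (q + 1) / (2 * p) := by positivity
    linarith
  · rcases Nat.eq_zero_or_pos q with h0 | h0
    · subst h0
      simp
    · have hq : (1 : ℚ) ≤ q := by exact_mod_cast h0
      have h1 : (p : ℚ) ≤ q := by exact_mod_cast not_lt.1 h
      rw [div_le_one (by positivity)]
      linarith

/-- The share of the tail of an arc. -/
def Af (p q : ℕ) : ℚ := if q < p then (q + 1) / p else 1

/-- The share of the head of an arc. -/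
def Bf (p q : ℕ) : ℚ := if p < q then p / q else 1

theorem sq_sub_nonneg (a b : ℕ) : (0 : ℚ) ≤ ((a : ℚ) - b) ^ 2 - (a - b) := by
  have h : (0 : ℤ) ≤ ((a : ℤ) - b) * (((a : ℤ) - b) - 1) := by
    rcases le_or_gt ((a : ℤ) - b) 0 with h | h
    · nlinarith
    · have h1 : (1 : ℤ) ≤ (a : ℤ) - b := h
      nlinarith
  have h2 : (0 : ℚ) ≤ ((a : ℚ) - b) * (((a : ℚ) - b) - 1) := by exact_mod_cast h
  nlinarith

theorem arc_ineq (pu qu pv qv : ℕ) (hpu : 1 ≤ pu) (hqv : 1 ≤ qv) :
    Af pu qu + Bf pv qv - 1 ≤ lam pv qv * (pv / pu) + (1 - lam pu qu) * (qu / qv) := by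
  have hP : (0 : ℚ) < pu := by exact_mod_cast hpu
  have hQ : (0 : ℚ) < qv := by exact_mod_cast hqv
  rcases lt_or_ge qu pu with h1 | h1
  · have e1 : lam pu qu = 1 - (qu + 1) / (2 * pu) := by
      unfold lam
      rw [if_pos h1]
    have a1 : Af pu qu = (qu + 1) / pu := by
      unfold Af
      rw [if_pos h1]
    have i1 : (qu : ℚ) + 1 ≤ pu := by exact_mod_cast h1
    rcases lt_or_ge qv pv with h2 | h2
    · have e2 : lam pv qv = 1 - (qv + 1) / (2 * pv) := by
        unfold lam
        rw [if_pos h2]
      have b2 : Bf pv qv = 1 := by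
        unfold Bf
        rw [if_neg (by omega)]
      have i2 : (qv : ℚ) + 1 ≤ pv := by exact_mod_cast h2
      have hpv : (0 : ℚ) < pv := by linarith
      rw [e1, e2, a1, b2]
      have key := sq_sub_nonneg qv qu
      have : (1 - ((qv : ℚ) + 1) / (2 * pv)) * (pv / pu) + (1 - (1 - ((qu : ℚ) + 1) / (2 * pu))) *
          (qu / qv) - ((qu + 1) / pu + 1 - 1)
          = ((2 * pv - qv - 1) * qv + qu * (qu + 1) - 2 * (qu + 1) * qv) / (2 * pu * qv) := by
        field_simp
        ring
      have h3 : 0 ≤ ((2 * (pv : ℚ) - qv - 1) * qv + qu * (qu + 1) - 2 * (qu + 1) * qv)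
          / (2 * pu * qv) := by
        apply div_nonneg _ (by positivity)
        nlinarith
      linarith
    · have e2 : lam pv qv = (pv + 1) / (2 * qv) := by
        unfold lam
        rw [if_neg (by omega)]
      have b2 : Bf pv qv = pv / qv := by
        unfold Bf
        split_ifs with h
        · rfl
        · have : pv = qv := by omega
          rw [this, div_self hQ.ne']
      have i2 : (pv : ℚ) ≤ qv := by exact_mod_cast h2
      rw [e1, e2, a1, b2]
      have key := sq_sub_nonneg pv qu
      have : ((pv : ℚ) + 1) / (2 * qv) * (pv / pu) + (1 - (1 - ((qu : ℚ) + 1) / (2 * pu))) *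
          (qu / qv) - ((qu + 1) / pu + pv / qv - 1)
          = (pv * (pv + 1) + qu * (qu + 1) - 2 * (qu + 1) * qv - 2 * pv * pu + 2 * pu * qv)
            / (2 * pu * qv) := by
        field_simp
        ring
      have h3 : 0 ≤ ((pv : ℚ) * (pv + 1) + qu * (qu + 1) - 2 * (qu + 1) * qv - 2 * pv * pu
          + 2 * pu * qv) / (2 * pu * qv) := by
        apply div_nonneg _ (by positivity)
        have h4 : 0 ≤ ((pu : ℚ) - (qu + 1)) * (qv - pv) :=
          mul_nonneg (by linarith) (by linarith)
        nlinarith
      linarith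
  · have e1 : lam pu qu = (pu + 1) / (2 * qu) := by
      unfold lam
      rw [if_neg (by omega)]
    have a1 : Af pu qu = 1 := by
      unfold Af
      rw [if_neg (by omega)]
    have i1 : (pu : ℚ) ≤ qu := by exact_mod_cast h1
    have hqu : (0 : ℚ) < qu := by linarith
    rcases lt_or_ge qv pv with h2 | h2
    · have e2 : lam pv qv = 1 - (qv + 1) / (2 * pv) := by
        unfold lam
        rw [if_pos h2]
      have b2 : Bf pv qv = 1 := by
        unfold Bf
        rw [if_neg (by omega)]
      have i2 : (qv : ℚ) + 1 ≤ pv := by exact_mod_cast h2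
      have hpv : (0 : ℚ) < pv := by linarith
      rw [e1, e2, a1, b2]
      have key := sq_sub_nonneg pu qv
      have : (1 - ((qv : ℚ) + 1) / (2 * pv)) * (pv / pu) + (1 - ((pu : ℚ) + 1) / (2 * qu)) *
          (qu / qv) - (1 + 1 - 1)
          = ((2 * pv - qv - 1) * qv + (2 * qu - pu - 1) * pu - 2 * pu * qv) / (2 * pu * qv) := by
        field_simp
        ring
      have h3 : 0 ≤ ((2 * (pv : ℚ) - qv - 1) * qv + (2 * qu - pu - 1) * pu - 2 * pu * qv)
          / (2 * pu * qv) := by
        apply div_nonneg _ (by positivity)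
        nlinarith
      linarith
    · have e2 : lam pv qv = (pv + 1) / (2 * qv) := by
        unfold lam
        rw [if_neg (by omega)]
      have b2 : Bf pv qv = pv / qv := by
        unfold Bf
        split_ifs with h
        · rfl
        · have : pv = qv := by omega
          rw [this, div_self hQ.ne']
      have i2 : (pv : ℚ) ≤ qv := by exact_mod_cast h2
      rw [e1, e2, a1, b2]
      have key := sq_sub_nonneg pu pv
      have : ((pv : ℚ) + 1) / (2 * qv) * (pv / pu) + (1 - ((pu : ℚ) + 1) / (2 * qu)) *
          (qu / qv) - (1 + pv / qv - 1)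
          = (pv * (pv + 1) + (2 * qu - pu - 1) * pu - 2 * pv * pu) / (2 * pu * qv) := by
        field_simp
        ring
      have h3 : 0 ≤ ((pv : ℚ) * (pv + 1) + (2 * qu - pu - 1) * pu - 2 * pv * pu)
          / (2 * pu * qv) := by
        apply div_nonneg _ (by positivity)
        nlinarith
      linarith

end Pool.Agent.Helper3.Thom
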