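import Mathlib

/-!
# A potential for the round case
-/

set_option autoImplicit false

namespace Pool.Agent.Helper3.Thom

open Finset

/-- The potential. -/
def Psi (p q : ℕ) : ℤ := ∑ i ∈ Finset.range (p + 1), ((q - i : ℕ) : ℤ)

/-- The cost `|b| - [b > 0]` with `b = p - q`. -/
def phi (p q : ℕ) : ℤ := |(p : ℤ) - q| - (if q < p then 1 else 0)

theorem Psi_mono {p p' : ℕ} (q : ℕ) (h : p ≤ p') : Psi p q ≤ Psi p' q := by
  unfold Psi
  refine Finset.sum_le_sum_of_subset_of_nonneg ?_ fun i _ _ => by positivity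
  intro i hi
  rw [Finset.mem_range] at hi ⊢
  omega

theorem term_le (q q' i : ℕ) (h : q' ≤ q + 1) :
    -(if q + 1 ≤ i then 1 else 0 : ℤ) ≤ ((q' - i : ℕ) : ℤ) - ((q - i : ℕ) : ℤ) + ((q : ℤ) - q') := by
  split_ifs with hi
  · omega
  · omega

theorem count_le (p q : ℕ) :
    ∑ i ∈ Finset.range p, (if q + 1 ≤ i then 1 else 0 : ℤ) ≤ ((p - 1 - q : ℕ) : ℤ) := by
  rw [Finset.sum_boole]
  have h : (Finset.range p).filter (fun i => q + 1 ≤ i) ⊆ Finset.Ico (q + 1) p := by
    intro i hi
    rw [Finset.mem_filter, Finset.mem_range] at hi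
    rw [Finset.mem_Ico]
    omega
  have h1 := Finset.card_le_card h
  rw [Nat.card_Ico] at h1
  have h2 : p - (q + 1) = p - 1 - q := by omega
  rw [h2] at h1
  exact_mod_cast h1

/-- The local inequality. -/
theorem local_ineq (p q p' q' : ℕ) (hp : p ≤ p' + 1) (hq : q' ≤ q + 1) :
    Psi p q ≤ ((q : ℤ) - q') * p + phi p q + Psi p' q' := by
  rcases Nat.eq_zero_or_pos p with h0 | h0
  · subst h0
    have h1 : Psi 0 q = q := by
      unfold Psi
      simp
    have h2 : (0 : ℤ) ≤ Psi p' q' := by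
      unfold Psi
      positivity
    have h3 : (q : ℤ) ≤ phi 0 q := by
      unfold phi
      simp
    rw [h1]
    push_cast
    linarith
  · have h1 : Psi (p - 1) q' ≤ Psi p' q' := Psi_mono q' (by omega)
    have h2 : Psi (p - 1) q' = ∑ i ∈ Finset.range p, ((q' - i : ℕ) : ℤ) := by
      unfold Psi
      congr 2
      omega
    have h3 : Psi p q = ∑ i ∈ Finset.range p, ((q - i : ℕ) : ℤ) + ((q - p : ℕ) : ℤ) := by
      unfold Psi
      rw [Finset.sum_range_succ]
    have h4 : -∑ i ∈ Finset.range p, (if q + 1 ≤ i then 1 else 0 : ℤ)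
        ≤ ∑ i ∈ Finset.range p, ((q' - i : ℕ) : ℤ) - ∑ i ∈ Finset.range p, ((q - i : ℕ) : ℤ)
          + p * ((q : ℤ) - q') := by
      have h5 : (p : ℤ) * ((q : ℤ) - q') = ∑ _i ∈ Finset.range p, ((q : ℤ) - q') := by
        rw [Finset.sum_const, Finset.card_range, nsmul_eq_mul]
      rw [h5, ← Finset.sum_sub_distrib, ← Finset.sum_add_distrib, ← Finset.sum_neg_distrib]
      exact Finset.sum_le_sum fun i _ => term_le q q' i hq
    have h6 := count_le p q
    have h7 : ((p - 1 - q : ℕ) : ℤ) + ((q - p : ℕ) : ℤ) ≤ phi p q := by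
      unfold phi
      split_ifs with h
      · rw [abs_of_nonneg (by omega)]
        omega
      · rw [abs_of_nonpos (by omega)]
        omega
    rw [h3]
    rw [h2] at h1
    nlinarith

end Pool.Agent.Helper3.Thom
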