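import Mathlib
import Pool.Agent.Helper3.Thom.Potential

/-!
# The weighted round case
-/

set_option autoImplicit false

namespace Pool.Agent.Helper3.Thom

open Finset

/-- The cost of a cluster of size `w`, with outer degrees `p` and `q`. -/
def hub (p q w : ℕ) : ℤ := ∑ a ∈ Finset.range w, (phi (p + (w - 1 - a)) (q + a) - a)

theorem hub_succ (p q w : ℕ) : hub p q (w + 1) = phi (p + w) q + hub p (q + 1) w - w := by
  unfold hub
  rw [Finset.sum_range_succ']
  have h1 : ∑ a ∈ Finset.range w, (phi (p + (w + 1 - 1 - (a + 1))) (q + (a + 1)) - ((a + 1 : ℕ) : ℤ))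
      = ∑ a ∈ Finset.range w, (phi (p + (w - 1 - a)) (q + 1 + a) - a) - w := by
    have h2 : (w : ℤ) = ∑ _a ∈ Finset.range w, (1 : ℤ) := by simp
    rw [h2, ← Finset.sum_sub_distrib]
    refine Finset.sum_congr rfl fun a _ => ?_
    have h3 : w + 1 - 1 - (a + 1) = w - 1 - a := by omega
    have h4 : q + (a + 1) = q + 1 + a := by omega
    rw [h3, h4]
    push_cast
    ring
  rw [h1]
  simp
  ring

/-- The inequality for a cluster. -/
theorem cluster_ineq (w : ℕ) : ∀ (p q P' q' : ℕ), 1 ≤ w → p ≤ P' + 1 → q' ≤ q + w →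
    Psi (p + (w - 1)) q ≤ ((q : ℤ) - q') * p + hub p q w + Psi P' q' := by
  induction w with
  | zero => intro p q P' q' h
            omega
  | succ w ih =>
    intro p q P' q' _ hp hq
    rcases Nat.eq_zero_or_pos w with h0 | h0
    · subst h0
      have h1 := local_ineq p q P' q' hp hq
      have h2 : hub p q 1 = phi p q := by
        unfold hub
        simp
      have h3 : hub p q (0 + 1) = phi p q := h2
      rw [h3]
      simpa using h1
    · have h1 := ih p (q + 1) P' q' h0 hp (by omega)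
      have h2 := local_ineq (p + w) q (p + (w - 1)) (q + 1) (by omega) le_rfl
      rw [hub_succ]
      have h3 : p + (w + 1 - 1) = p + w := by omega
      rw [h3]
      push_cast at h1 h2 ⊢
      nlinarith

section Cyc

variable {r : ℕ} [NeZero r]

/-- The arcs of the round digraph on `ZMod r`. -/
def rel (F : ZMod r → ℕ) (i j : ZMod r) : Prop := ∃ k : ℕ, 1 ≤ k ∧ k ≤ F i ∧ j = i + k

theorem rel_iff (F : ZMod r → ℕ) (hF : ∀ i, F i < r) (i j : ZMod r) :
    rel F i j ↔ 1 ≤ (j - i).val ∧ (j - i).val ≤ F i := by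
  constructor
  · rintro ⟨k, h1, h2, rfl⟩
    have h3 : (i + (k : ZMod r) - i).val = k := by
      rw [add_sub_cancel_left]
      exact ZMod.val_cast_of_lt (lt_of_le_of_lt h2 (hF i))
    rw [h3]
    exact ⟨h1, h2⟩
  · rintro ⟨h1, h2⟩
    refine ⟨(j - i).val, h1, h2, ?_⟩
    rw [ZMod.natCast_zmod_val]
    ring

theorem rel_succ_iff (F : ZMod r → ℕ) (hF : ∀ i, F i < r) (i j : ZMod r) :
    rel F i (j + 1) ↔ (j - i).val + 1 ≤ F i := by
  constructor
  · rintro ⟨k, h1, h2, h3⟩
    have h4 : j - i = ((k - 1 : ℕ) : ZMod r) := by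
      rw [Nat.cast_sub h1, Nat.cast_one]
      have : j = i + k - 1 := by rw [← h3]; ring
      rw [this]
      ring
    have h5 : (j - i).val = k - 1 := by
      rw [h4]
      exact ZMod.val_cast_of_lt (by have := hF i; omega)
    omega
  · intro h
    refine ⟨(j - i).val + 1, by omega, h, ?_⟩
    rw [Nat.cast_add, ZMod.natCast_zmod_val, Nat.cast_one]
    ring

theorem last_iff (F : ZMod r → ℕ) (hF : ∀ i, F i < r) (i j : ZMod r) :
    i + (F i : ZMod r) = j ↔ (j - i).val = F i := by
  constructor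
  · rintro rfl
    rw [add_sub_cancel_left]
    exact ZMod.val_cast_of_lt (hF i)
  · intro h
    rw [← h, ZMod.natCast_zmod_val]
    ring

open Classical in
theorem indicator_identity (F : ZMod r → ℕ) (hF : ∀ i, F i < r) (i j : ZMod r) :
    (if rel F i (j + 1) then 1 else 0 : ℤ) + (if i + (F i : ZMod r) = j then 1 else 0)
      = (if rel F i j then 1 else 0) + (if i = j then 1 else 0) := by
  have h1 : i = j ↔ (j - i).val = 0 := by
    rw [ZMod.val_eq_zero, sub_eq_zero]
    exact eq_comm
  have h2 := rel_succ_iff F hF i j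
  have h3 := rel_iff F hF i j
  have h4 := last_iff F hF i j
  simp only [h2, h3, h4, h1]
  split_ifs <;> omega

variable (F B : ZMod r → ℕ) (w : ZMod r → ℕ)

open Classical in
/-- Outer out-degree of a cluster. -/
noncomputable def pw (i : ZMod r) : ℕ := ∑ j, if rel F i j then w j else 0

open Classical in
/-- Outer in-degree of a cluster. -/
noncomputable def qw (j : ZMod r) : ℕ := ∑ i, if rel F i j then w i else 0

open Classical in
theorem qw_succ (hF : ∀ i, F i < r) (j : ZMod r) :
    (qw F w (j + 1) : ℤ) + ∑ i, (if i + (F i : ZMod r) = j then (w i : ℤ) else 0)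
      = qw F w j + w j := by
  unfold qw
  push_cast
  have h1 : (w j : ℤ) = ∑ i, if i = j then (w i : ℤ) else 0 := by simp
  rw [h1, ← Finset.sum_add_distrib, ← Finset.sum_add_distrib]
  refine Finset.sum_congr rfl fun i _ => ?_
  have h2 := indicator_identity F hF i j
  have h3 : (w i : ℤ) * ((if rel F i (j + 1) then 1 else 0 : ℤ)
      + (if i + (F i : ZMod r) = j then 1 else 0))
      = (w i : ℤ) * ((if rel F i j then 1 else 0) + (if i = j then 1 else 0)) := by rw [h2]
  have e : ∀ (P : Prop) [Decidable P], (if P then (w i : ℤ) else 0)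
      = (w i : ℤ) * (if P then 1 else 0) := by
    intro P _
    split_ifs <;> simp
  rw [e, e, e, e, ← mul_add, ← mul_add]
  exact h3

theorem qw_le (hF : ∀ i, F i < r) (j : ZMod r) : qw F w (j + 1) ≤ qw F w j + w j := by
  have h := qw_succ F w hF j
  classical
  have h1 : (0 : ℤ) ≤ ∑ i, (if i + (F i : ZMod r) = j then (w i : ℤ) else 0) :=
    Finset.sum_nonneg fun i _ => by split_ifs <;> positivity
  have h2 : (qw F w (j + 1) : ℤ) ≤ qw F w j + w j := by linarith
  exact_mod_cast h2

theorem pw_le (hFB : ∀ i j, rel F i j ↔ ∃ k : ℕ, 1 ≤ k ∧ k ≤ B j ∧ i = j - k) (i : ZMod r) :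
    pw F w i ≤ w (i + 1) + pw F w (i + 1) := by
  classical
  unfold pw
  have h1 : w (i + 1) = ∑ j, if j = i + 1 then w j else 0 := by simp
  rw [h1, ← Finset.sum_add_distrib]
  refine Finset.sum_le_sum fun j _ => ?_
  by_cases h : rel F i j
  · rw [if_pos h]
    by_cases h2 : j = i + 1
    · rw [if_pos h2]
      omega
    · have h3 : rel F (i + 1) j := by
        obtain ⟨k, hk1, hk2, hk3⟩ := (hFB i j).1 h
        rw [hFB]
        have hk4 : k ≠ 1 := by
          rintro rfl
          apply h2
          rw [hk3]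
          simp
        refine ⟨k - 1, by omega, by omega, ?_⟩
        rw [Nat.cast_sub hk1, hk3]
        push_cast
        ring
      rw [if_pos h3]
      omega
  · rw [if_neg h]
    omega

/-- The telescoped inequality. -/
theorem cyc_ineq (hF : ∀ i, F i < r)
    (hFB : ∀ i j, rel F i j ↔ ∃ k : ℕ, 1 ≤ k ∧ k ≤ B j ∧ i = j - k) (hw : ∀ i, 1 ≤ w i) :
    ∑ i, (w i : ℤ) * pw F w i
      ≤ ∑ i, (w i : ℤ) * pw F w (i + (F i : ZMod r)) + ∑ i, hub (pw F w i) (qw F w i) (w i) := by
  classical
  have h1 : ∀ i, Psi (pw F w i + (w i - 1)) (qw F w i)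
      ≤ ((qw F w i : ℤ) - qw F w (i + 1)) * pw F w i + hub (pw F w i) (qw F w i) (w i)
        + Psi (pw F w (i + 1) + (w (i + 1) - 1)) (qw F w (i + 1)) := by
    intro i
    refine cluster_ineq (w i) _ _ _ _ (hw i) ?_ (qw_le F w hF i)
    have h2 := pw_le F B w hFB i
    have h3 := hw (i + 1)
    omega
  have h2 := Finset.sum_le_sum fun i (_ : i ∈ (Finset.univ : Finset (ZMod r))) => h1 i
  have h3 : ∑ i : ZMod r, Psi (pw F w (i + 1) + (w (i + 1) - 1)) (qw F w (i + 1))
      = ∑ i : ZMod r, Psi (pw F w i + (w i - 1)) (qw F w i) :=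
    Fintype.sum_equiv (Equiv.addRight (1 : ZMod r)) _ _ fun i => rfl
  rw [Finset.sum_add_distrib, Finset.sum_add_distrib, h3] at h2
  have h4 : ∑ i, (w i : ℤ) * pw F w (i + (F i : ZMod r))
      = ∑ j, (∑ i, (if i + (F i : ZMod r) = j then (w i : ℤ) else 0)) * pw F w j := by
    simp only [Finset.sum_mul]
    rw [Finset.sum_comm]
    refine Finset.sum_congr rfl fun i _ => ?_
    rw [Finset.sum_eq_single (i + (F i : ZMod r))]
    · rw [if_pos rfl]
    · intro j _ hj
      rw [if_neg (Ne.symm hj), zero_mul]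
    · intro h
      exact absurd (Finset.mem_univ _) h
  have h5 : ∑ j, (∑ i, (if i + (F i : ZMod r) = j then (w i : ℤ) else 0)) * pw F w j
      = ∑ j, ((qw F w j : ℤ) - qw F w (j + 1)) * pw F w j + ∑ j, (w j : ℤ) * pw F w j := by
    rw [← Finset.sum_add_distrib]
    refine Finset.sum_congr rfl fun j _ => ?_
    have h6 := qw_succ F w hF j
    have h7 : ∑ i, (if i + (F i : ZMod r) = j then (w i : ℤ) else 0)
        = qw F w j - qw F w (j + 1) + w j := by linarith
    rw [h7]
    ring
  rw [h4, h5]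
  linarith

end Cyc

end Pool.Agent.Helper3.Thom
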