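import Mathlib
import Pool.Agent.Helper34.ThomGame
import Pool.Agent.Helper3.Thom.Cyc

/-!
# The tournament inequality with a shift
-/

set_option autoImplicit false

namespace Pool.Agent.Helper3.Thom

open Finset

open scoped Classical in
section

/-- The cost as a function of the difference. -/
def phiZ (b : ℤ) : ℤ := |b| - (if 0 < b then 1 else 0)

theorem phi_eq (p q : ℕ) : phi p q = phiZ ((p : ℤ) - q) := by
  unfold phi phiZ
  congr 1
  by_cases h : q < p
  · rw [if_pos h, if_pos (by omega)]
  · rw [if_neg h, if_neg (by omega)]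

theorem phiZ_of_pos {b : ℤ} (h : 0 < b) : phiZ b = b - 1 := by
  unfold phiZ
  rw [if_pos h, abs_of_pos h]

theorem phiZ_of_nonpos {b : ℤ} (h : b ≤ 0) : phiZ b = -b := by
  unfold phiZ
  rw [if_neg (by omega), abs_of_nonpos h, sub_zero]

/-- The cost of a transitive cluster. -/
def hubZ (t : ℤ) (w : ℕ) : ℤ := ∑ a ∈ Finset.range w, (phiZ (t + (w - 1) - 2 * a) - a)

theorem hub_eq (p q w : ℕ) : hub p q w = hubZ ((p : ℤ) - q) w := by
  unfold hub hubZ
  refine Finset.sum_congr rfl fun a ha => ?_
  rw [Finset.mem_range] at ha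
  rw [phi_eq]
  congr 2
  push_cast [Nat.cast_sub (show a ≤ w - 1 by omega), Nat.cast_sub (show 1 ≤ w by omega)]
  ring

theorem hubZ_first (t : ℤ) (w : ℕ) : hubZ t (w + 1) = phiZ (t + w) + hubZ (t - 1) w - w := by
  unfold hubZ
  rw [Finset.sum_range_succ']
  have h2 : (w : ℤ) = ∑ _a ∈ Finset.range w, (1 : ℤ) := by simp
  have h1 : ∑ a ∈ Finset.range w, (phiZ (t + (((w + 1 : ℕ) : ℤ) - 1) - 2 * ((a + 1 : ℕ) : ℤ))
        - ((a + 1 : ℕ) : ℤ))
      = ∑ a ∈ Finset.range w, (phiZ (t - 1 + ((w : ℤ) - 1) - 2 * a) - a)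
        - ∑ _a ∈ Finset.range w, (1 : ℤ) := by
    rw [← Finset.sum_sub_distrib]
    refine Finset.sum_congr rfl fun a _ => ?_
    have h4 : t + (((w + 1 : ℕ) : ℤ) - 1) - 2 * ((a + 1 : ℕ) : ℤ)
        = t - 1 + ((w : ℤ) - 1) - 2 * a := by
      push_cast
      ring
    rw [h4]
    push_cast
    ring
  rw [h1, ← h2]
  push_cast
  have h5 : t + ((w : ℤ) + 1 - 1) - 0 = t + w := by ring
  simp only [h5]
  ring

theorem hubZ_last (t : ℤ) (w : ℕ) : hubZ t (w + 1) = phiZ (t - w) + hubZ (t + 1) w - w := by
  unfold hubZ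
  rw [Finset.sum_range_succ]
  have h1 : ∑ a ∈ Finset.range w, (phiZ (t + (((w + 1 : ℕ) : ℤ) - 1) - 2 * (a : ℤ)) - (a : ℤ))
      = ∑ a ∈ Finset.range w, (phiZ (t + 1 + ((w : ℤ) - 1) - 2 * a) - a) := by
    refine Finset.sum_congr rfl fun a _ => ?_
    have h4 : t + (((w + 1 : ℕ) : ℤ) - 1) - 2 * (a : ℤ) = t + 1 + ((w : ℤ) - 1) - 2 * a := by
      push_cast
      ring
    rw [h4]
  rw [h1]
  have h5 : t + (((w + 1 : ℕ) : ℤ) - 1) - 2 * (w : ℤ) = t - w := by
    push_cast
    ring
  rw [h5]
  ring

theorem hubZ_mid (w : ℕ) : ∀ t : ℤ, -(w : ℤ) ≤ t → t ≤ w → 2 * hubZ t w = t * (t - 1) := by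
  induction w with
  | zero =>
    intro t h1 h2
    have : t = 0 := by
      push_cast at h1 h2
      omega
    subst this
    simp [hubZ]
  | succ w ih =>
    intro t h1 h2
    push_cast at h1 h2
    rcases lt_or_ge 0 t with h | h
    · rw [hubZ_first, phiZ_of_pos (by omega)]
      have h3 := ih (t - 1) (by omega) (by omega)
      nlinarith
    · rw [hubZ_last, phiZ_of_nonpos (by omega)]
      rcases Nat.eq_zero_or_pos w with h0 | h0
      · subst h0
        have h4 : t = 0 ∨ t = -1 := by
          push_cast at h1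
          omega
        rcases h4 with rfl | rfl <;> simp [hubZ]
      · have h3 := ih (t + 1) (by omega) (by omega)
        nlinarith

theorem hubZ_large (w : ℕ) (t : ℤ) (h : (w : ℤ) ≤ t) :
    2 * hubZ t w = 2 * w * (t - 1) - w * (w - 1) := by
  induction w generalizing t with
  | zero => simp [hubZ]
  | succ w ih =>
    push_cast at h
    rw [hubZ_last]
    rcases lt_or_ge 0 (t - w) with h1 | h1
    · rw [phiZ_of_pos h1]
      have h2 := ih (t + 1) (by omega)
      push_cast
      nlinarith
    · omega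

theorem hubZ_small (w : ℕ) (t : ℤ) (h : t ≤ -(w : ℤ)) :
    2 * hubZ t w = -(2 * w * t) - w * (w - 1) := by
  induction w generalizing t with
  | zero => simp [hubZ]
  | succ w ih =>
    push_cast at h
    rw [hubZ_first, phiZ_of_nonpos (by omega)]
    have h2 := ih (t - 1) (by omega)
    push_cast
    nlinarith

variable {V : Type} [Fintype V] {R : V → V → Prop} {M : V → V → ℤ}

/-- The structure used: a skew matrix with entries of absolute value at most one and a strict
partial order whose elements have monotone rows. -/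
structure Dom (R : V → V → Prop) (M : V → V → ℤ) : Prop where
  skew : ∀ x y, M x y = - M y x
  mono : ∀ x y z, R x y → M y z ≤ M x z
  one : ∀ x y, R x y → 1 ≤ M x y
  trans : ∀ x y z, R x y → R y z → R x z
  low : ∀ x y, -1 ≤ M x y

omit [Fintype V] in
theorem Dom.up (h : Dom R M) (x y : V) : M x y ≤ 1 := by
  have h1 := h.low y x
  rw [h.skew]
  omega

/-- sign of the difference -/
def sgn (i j : ℕ) : ℤ := if i < j then 1 else if j < i then -1 else 0

theorem sum_sgn (t : ℕ) (i : Fin t) : ∑ j : Fin t, sgn i j = (t : ℤ) - 1 - 2 * i := by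
  have h1 : ∀ n : ℕ, ∀ k : ℕ, k < n → ∑ j ∈ Finset.range n, sgn k j = (n : ℤ) - 1 - 2 * k := by
    intro n
    induction n with
    | zero => intro k hk
              omega
    | succ n ih =>
      intro k hk
      rw [Finset.sum_range_succ]
      rcases Nat.lt_or_ge k n with h | h
      · rw [ih k h]
        unfold sgn
        rw [if_pos h]
        push_cast
        ring
      · have hkn : k = n := by omega
        subst hkn
        have h2 : ∑ j ∈ Finset.range k, sgn k j = ∑ _j ∈ Finset.range k, (-1 : ℤ) := by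
          refine Finset.sum_congr rfl fun j hj => ?_
          rw [Finset.mem_range] at hj
          unfold sgn
          rw [if_neg (by omega), if_pos hj]
        rw [h2]
        unfold sgn
        simp
        ring
  rw [Fin.sum_univ_eq_sum_range (fun j => sgn i j) t]
  exact h1 t i i.2

theorem sum_lt (t : ℕ) : 2 * ∑ i : Fin t, ∑ j : Fin t, (if i < j then 1 else 0 : ℤ)
    = t * (t - 1) := by
  have h1 : ∀ i j : Fin t, (if i < j then 1 else 0 : ℤ) + (if j < i then 1 else 0)
      = 1 - (if i = j then 1 else 0) := by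
    intro i j
    rcases lt_trichotomy i j with h | h | h
    · rw [if_pos h, if_neg (by omega), if_neg (by omega)]
      norm_num
    · subst h
      simp
    · rw [if_neg (by omega), if_pos h, if_neg (by omega)]
      norm_num
  have h2 : ∑ i : Fin t, ∑ j : Fin t, (if i < j then 1 else 0 : ℤ)
      + ∑ i : Fin t, ∑ j : Fin t, (if j < i then 1 else 0 : ℤ)
      = ∑ i : Fin t, ∑ j : Fin t, (1 - (if i = j then 1 else 0) : ℤ) := by
    rw [← Finset.sum_add_distrib]
    refine Finset.sum_congr rfl fun i _ => ?_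
    rw [← Finset.sum_add_distrib]
    exact Finset.sum_congr rfl fun j _ => h1 i j
  have h3 : ∑ i : Fin t, ∑ j : Fin t, (if j < i then 1 else 0 : ℤ)
      = ∑ i : Fin t, ∑ j : Fin t, (if i < j then 1 else 0 : ℤ) := Finset.sum_comm
  rw [h3] at h2
  simp only [Finset.sum_sub_distrib, Finset.sum_const, Finset.card_univ, Fintype.card_fin,
    nsmul_eq_mul, mul_one, Finset.sum_ite_eq, Finset.mem_univ, if_true] at h2
  linarith

/-- The number of pairs of the order. -/
noncomputable def cnt (R : V → V → Prop) : ℤ := ∑ x, ∑ y, (if R x y then 1 else 0 : ℤ)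

theorem shift_up (h : Dom R M) (t : ℕ) (ht : t ≤ Fintype.card V) :
    2 * cnt R + t * (t - 1) ≤ 2 * ∑ x, phiZ (∑ y, M x y + t) := by
  set R' : V ⊕ Fin t → V ⊕ Fin t → Prop := fun x y => match x, y with
    | Sum.inl x, Sum.inl y => R x y
    | Sum.inl _, Sum.inr _ => True
    | Sum.inr _, Sum.inl _ => False
    | Sum.inr i, Sum.inr j => i < j with hR'
  set M' : V ⊕ Fin t → V ⊕ Fin t → ℤ := fun x y => match x, y with
    | Sum.inl x, Sum.inl y => M x y
    | Sum.inl _, Sum.inr _ => 1
    | Sum.inr _, Sum.inl _ => -1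
    | Sum.inr i, Sum.inr j => sgn i j with hM'
  have hskew : ∀ x y, M' x y = - M' y x := by
    rintro (x | i) (y | j)
    · exact h.skew x y
    · rfl
    · rfl
    · simp only [hM', sgn]
      split_ifs <;> omega
  have hmono : ∀ x y z, R' x y → M' y z ≤ M' x z := by
    rintro (x | i) (y | j) (z | k) hxy
    · exact h.mono x y z hxy
    · exact le_rfl
    · exact h.low x z
    · simp only [hM', sgn]
      split_ifs <;> omega
    · exact hxy.elim
    · exact hxy.elim
    · exact le_rfl
    · have hij : (i : ℕ) < j := hxy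
      simp only [hM', sgn]
      split_ifs <;> omega
  have hone : ∀ x y, R' x y → 1 ≤ M' x y := by
    rintro (x | i) (y | j) hxy
    · exact h.one x y hxy
    · exact le_rfl
    · exact hxy.elim
    · have hij : (i : ℕ) < j := hxy
      simp only [hM', sgn]
      rw [if_pos hij]
  have htrans : ∀ x y z, R' x y → R' y z → R' x z := by
    rintro (x | i) (y | j) (z | k) hxy hyz
    · exact h.trans x y z hxy hyz
    · trivial
    · exact hyz.elim
    · trivial
    · exact hxy.elim
    · exact hxy.elim
    · exact hyz.elim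
    · exact lt_trans (show i < j from hxy) hyz
  have key := Pool.Agent.Helper34.Thom.pairs_le (R := R') (M := M') hskew hmono hone htrans
    (fun x => ∑ z, M' x z) Finset.univ (fun x _ y _ _ => by rw [Finset.sum_sub_distrib])
  simp only [Fintype.sum_sum_type] at key
  have e1 : ∑ x : V, ((∑ y : V, if R' (Sum.inl x) (Sum.inl y) then 1 else 0 : ℤ)
      + ∑ j : Fin t, if R' (Sum.inl x) (Sum.inr j) then 1 else 0) = cnt R + Fintype.card V * t := by
    rw [Finset.sum_add_distrib]
    congr 1
    simp only [hR', if_true, Finset.sum_const, Finset.card_univ, Fintype.card_fin, nsmul_eq_mul,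
      mul_one]
  have e2 : ∑ i : Fin t, ((∑ y : V, if R' (Sum.inr i) (Sum.inl y) then 1 else 0 : ℤ)
      + ∑ j : Fin t, if R' (Sum.inr i) (Sum.inr j) then 1 else 0)
      = ∑ i : Fin t, ∑ j : Fin t, (if i < j then 1 else 0 : ℤ) := by
    refine Finset.sum_congr rfl fun i _ => ?_
    simp only [hR', if_false, Finset.sum_const_zero, zero_add]
  have e3 : ∀ x : V, (∑ y : V, M' (Sum.inl x) (Sum.inl y)) + ∑ j : Fin t, M' (Sum.inl x) (Sum.inr j)
      = ∑ y, M x y + t := by
    intro x
    simp only [hM', Finset.sum_const, Finset.card_univ, Fintype.card_fin, nsmul_eq_mul, mul_one]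
  have e4 : ∀ i : Fin t, (∑ y : V, M' (Sum.inr i) (Sum.inl y))
      + ∑ j : Fin t, M' (Sum.inr i) (Sum.inr j)
      = -(Fintype.card V : ℤ) + ((t : ℤ) - 1 - 2 * i) := by
    intro i
    simp only [hM']
    rw [sum_sgn]
    simp
  have e5 : ∀ i : Fin t, phiZ (-(Fintype.card V : ℤ) + ((t : ℤ) - 1 - 2 * i))
      = Fintype.card V - (t - 1 - 2 * i) := by
    intro i
    rw [phiZ_of_nonpos (by omega)]
    ring
  have e6 : ∑ i : Fin t, ((Fintype.card V : ℤ) - (t - 1 - 2 * i)) = Fintype.card V * t := by
    have h7 : ∑ i : Fin t, ((t : ℤ) - 1 - 2 * i) = 0 := by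
      have h8 : ∑ i : Fin t, ((t : ℤ) - 1 - 2 * i) = ∑ i : Fin t, ∑ j : Fin t, sgn i j :=
        Finset.sum_congr rfl fun i _ => (sum_sgn t i).symm
      have h9 : ∑ i : Fin t, ∑ j : Fin t, sgn i j = - ∑ i : Fin t, ∑ j : Fin t, sgn i j := by
        conv_lhs => rw [Finset.sum_comm]
        rw [← Finset.sum_neg_distrib]
        refine Finset.sum_congr rfl fun i _ => ?_
        rw [← Finset.sum_neg_distrib]
        refine Finset.sum_congr rfl fun j _ => ?_
        unfold sgn
        split_ifs <;> omega
      rw [h8]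
      omega
    rw [Finset.sum_sub_distrib, h7]
    simp
    ring
  have key2 : cnt R + Fintype.card V * t + ∑ i : Fin t, ∑ j : Fin t, (if i < j then 1 else 0 : ℤ)
      ≤ ∑ x, phiZ (∑ y, M x y + t) + Fintype.card V * t := by
    rw [← e1, ← e2]
    have e7 : ∑ x, phiZ (∑ y, M x y + t) + (Fintype.card V : ℤ) * t
        = ∑ x, phiZ (∑ y, M x y + t) + ∑ i : Fin t, ((Fintype.card V : ℤ) - (t - 1 - 2 * i)) := by
      rw [e6]
    rw [e7]
    refine le_trans (le_of_eq ?_) (key.trans (le_of_eq ?_))
    · congr!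
    · congr 1
      · refine Finset.sum_congr rfl fun x _ => ?_
        rw [e3]
        unfold phiZ
        congr!
      · refine Finset.sum_congr rfl fun i _ => ?_
        rw [e4, ← e5]
        unfold phiZ
        congr!
  have h8 := sum_lt t
  linarith

theorem shift_down (h : Dom R M) (t : ℕ) (ht : t ≤ Fintype.card V) :
    2 * cnt R + t * (t + 1) ≤ 2 * ∑ x, phiZ (∑ y, M x y - t) := by
  set R' : V ⊕ Fin t → V ⊕ Fin t → Prop := fun x y => match x, y with
    | Sum.inl x, Sum.inl y => R x y
    | Sum.inl _, Sum.inr _ => False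
    | Sum.inr _, Sum.inl _ => True
    | Sum.inr i, Sum.inr j => i < j with hR'
  set M' : V ⊕ Fin t → V ⊕ Fin t → ℤ := fun x y => match x, y with
    | Sum.inl x, Sum.inl y => M x y
    | Sum.inl _, Sum.inr _ => -1
    | Sum.inr _, Sum.inl _ => 1
    | Sum.inr i, Sum.inr j => sgn i j with hM'
  have hskew : ∀ x y, M' x y = - M' y x := by
    rintro (x | i) (y | j)
    · exact h.skew x y
    · rfl
    · rfl
    · simp only [hM', sgn]
      split_ifs <;> omega
  have hmono : ∀ x y z, R' x y → M' y z ≤ M' x z := by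
    rintro (x | i) (y | j) (z | k) hxy
    · exact h.mono x y z hxy
    · exact le_rfl
    · exact hxy.elim
    · exact hxy.elim
    · exact h.up y z
    · simp only [hM', sgn]
      split_ifs <;> omega
    · exact le_rfl
    · have hij : (i : ℕ) < j := hxy
      simp only [hM', sgn]
      split_ifs <;> omega
  have hone : ∀ x y, R' x y → 1 ≤ M' x y := by
    rintro (x | i) (y | j) hxy
    · exact h.one x y hxy
    · exact hxy.elim
    · exact le_rfl
    · have hij : (i : ℕ) < j := hxy
      simp only [hM', sgn]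
      rw [if_pos hij]
  have htrans : ∀ x y z, R' x y → R' y z → R' x z := by
    rintro (x | i) (y | j) (z | k) hxy hyz
    · exact h.trans x y z hxy hyz
    · exact hyz.elim
    · exact hxy.elim
    · exact hxy.elim
    · trivial
    · exact hyz.elim
    · trivial
    · exact lt_trans (show i < j from hxy) hyz
  have key := Pool.Agent.Helper34.Thom.pairs_le (R := R') (M := M') hskew hmono hone htrans
    (fun x => ∑ z, M' x z) Finset.univ (fun x _ y _ _ => by rw [Finset.sum_sub_distrib])
  simp only [Fintype.sum_sum_type] at key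
  have e1 : ∑ x : V, ((∑ y : V, if R' (Sum.inl x) (Sum.inl y) then 1 else 0 : ℤ)
      + ∑ j : Fin t, if R' (Sum.inl x) (Sum.inr j) then 1 else 0) = cnt R := by
    rw [Finset.sum_add_distrib]
    simp only [hR', if_false, Finset.sum_const_zero, add_zero]
    rfl
  have e2 : ∑ i : Fin t, ((∑ y : V, if R' (Sum.inr i) (Sum.inl y) then 1 else 0 : ℤ)
      + ∑ j : Fin t, if R' (Sum.inr i) (Sum.inr j) then 1 else 0)
      = t * Fintype.card V + ∑ i : Fin t, ∑ j : Fin t, (if i < j then 1 else 0 : ℤ) := by
    rw [Finset.sum_add_distrib]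
    congr 1
    simp only [hR', if_true, Finset.sum_const, Finset.card_univ, Fintype.card_fin, nsmul_eq_mul,
      mul_one]
  have e3 : ∀ x : V, (∑ y : V, M' (Sum.inl x) (Sum.inl y)) + ∑ j : Fin t, M' (Sum.inl x) (Sum.inr j)
      = ∑ y, M x y - t := by
    intro x
    simp only [hM', Finset.sum_const, Finset.card_univ, Fintype.card_fin, nsmul_eq_mul]
    ring
  have e4 : ∀ i : Fin t, (∑ y : V, M' (Sum.inr i) (Sum.inl y))
      + ∑ j : Fin t, M' (Sum.inr i) (Sum.inr j)
      = (Fintype.card V : ℤ) + ((t : ℤ) - 1 - 2 * i) := by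
    intro i
    simp only [hM']
    rw [sum_sgn]
    simp
  have e5 : ∀ i : Fin t, phiZ ((Fintype.card V : ℤ) + ((t : ℤ) - 1 - 2 * i))
      = Fintype.card V - 1 + (t - 1 - 2 * i) := by
    intro i
    have := i.2
    rw [phiZ_of_pos (by omega)]
    ring
  have e6 : ∑ i : Fin t, ((Fintype.card V : ℤ) - 1 + (t - 1 - 2 * i))
      = (Fintype.card V - 1) * t := by
    have h7 : ∑ i : Fin t, ((t : ℤ) - 1 - 2 * i) = 0 := by
      have h8 : ∑ i : Fin t, ((t : ℤ) - 1 - 2 * i) = ∑ i : Fin t, ∑ j : Fin t, sgn i j :=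
        Finset.sum_congr rfl fun i _ => (sum_sgn t i).symm
      have h9 : ∑ i : Fin t, ∑ j : Fin t, sgn i j = - ∑ i : Fin t, ∑ j : Fin t, sgn i j := by
        conv_lhs => rw [Finset.sum_comm]
        rw [← Finset.sum_neg_distrib]
        refine Finset.sum_congr rfl fun i _ => ?_
        rw [← Finset.sum_neg_distrib]
        refine Finset.sum_congr rfl fun j _ => ?_
        unfold sgn
        split_ifs <;> omega
      rw [h8]
      omega
    rw [Finset.sum_add_distrib, h7]
    simp
    ring
  have key2 : cnt R + (t * Fintype.card V + ∑ i : Fin t, ∑ j : Fin t, (if i < j then 1 else 0 : ℤ))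
      ≤ ∑ x, phiZ (∑ y, M x y - t) + (Fintype.card V - 1) * t := by
    rw [← e1, ← e2]
    have e7 : ∑ x, phiZ (∑ y, M x y - t) + ((Fintype.card V : ℤ) - 1) * t
        = ∑ x, phiZ (∑ y, M x y - t)
          + ∑ i : Fin t, ((Fintype.card V : ℤ) - 1 + (t - 1 - 2 * i)) := by
      rw [e6]
    rw [e7]
    refine le_trans (le_of_eq ?_) (key.trans (le_of_eq ?_))
    · congr!
    · congr 1
      · refine Finset.sum_congr rfl fun x _ => ?_
        rw [e3]
        unfold phiZ
        congr!
      · refine Finset.sum_congr rfl fun i _ => ?_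
        rw [e4, ← e5]
        unfold phiZ
        congr!
  have h8 := sum_lt t
  nlinarith

/-- The sum of the row sums is zero. -/
theorem sum_rows (h : Dom R M) : ∑ x, ∑ y, M x y = 0 := by
  have h1 : ∑ x, ∑ y, M x y = - ∑ x, ∑ y, M x y := by
    conv_lhs => rw [Finset.sum_comm]
    rw [← Finset.sum_neg_distrib]
    refine Finset.sum_congr rfl fun x _ => ?_
    rw [← Finset.sum_neg_distrib]
    exact Finset.sum_congr rfl fun y _ => h.skew y x
  omega

theorem row_le (h : Dom R M) (x : V) : ∑ y, M x y ≤ Fintype.card V - 1 := by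
  have h0 : M x x = 0 := by
    have := h.skew x x
    omega
  rw [← Finset.add_sum_erase _ _ (Finset.mem_univ x), h0, zero_add]
  have h1 : ∑ y ∈ Finset.univ.erase x, M x y ≤ ∑ _y ∈ Finset.univ.erase x, (1 : ℤ) :=
    Finset.sum_le_sum fun y _ => h.up x y
  refine h1.trans (le_of_eq ?_)
  rw [Finset.sum_const, Finset.card_erase_of_mem (Finset.mem_univ x), Finset.card_univ]
  have h2 : 1 ≤ Fintype.card V := Fintype.card_pos_iff.2 ⟨x⟩
  rw [nsmul_eq_mul, mul_one, Nat.cast_sub h2, Nat.cast_one]

theorem le_row (h : Dom R M) (x : V) : -((Fintype.card V : ℤ) - 1) ≤ ∑ y, M x y := by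
  have h0 : M x x = 0 := by
    have := h.skew x x
    omega
  rw [← Finset.add_sum_erase _ _ (Finset.mem_univ x), h0, zero_add]
  have h1 : ∑ _y ∈ Finset.univ.erase x, (-1 : ℤ) ≤ ∑ y ∈ Finset.univ.erase x, M x y :=
    Finset.sum_le_sum fun y _ => h.low x y
  refine le_trans (le_of_eq ?_) h1
  rw [Finset.sum_const, Finset.card_erase_of_mem (Finset.mem_univ x), Finset.card_univ]
  have h2 : 1 ≤ Fintype.card V := Fintype.card_pos_iff.2 ⟨x⟩
  rw [nsmul_eq_mul, Nat.cast_sub h2, Nat.cast_one]
  ring

theorem cnt_le (h : Dom R M) : 2 * cnt R ≤ Fintype.card V * (Fintype.card V - 1) := by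
  have h1 : ∀ x y, (if R x y then 1 else 0 : ℤ) + (if R y x then 1 else 0)
      ≤ 1 - (if x = y then 1 else 0) := by
    intro x y
    by_cases hxy : R x y
    · have h2 := h.one x y hxy
      have h3 : ¬ R y x := fun hyx => by
        have h4 := h.one y x hyx
        have h5 := h.skew x y
        omega
      have h4 : x ≠ y := by
        rintro rfl
        exact h3 hxy
      rw [if_pos hxy, if_neg h3, if_neg h4]
      norm_num
    · rw [if_neg hxy]
      by_cases hyx : R y x
      · have h2 := h.one y x hyx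
        have h4 : x ≠ y := by
          rintro rfl
          exact hxy hyx
        rw [if_pos hyx, if_neg h4]
        norm_num
      · rw [if_neg hyx]
        split_ifs <;> norm_num
  have h2 : cnt R + cnt R ≤ ∑ x : V, ∑ y : V, (1 - (if x = y then 1 else 0) : ℤ) := by
    have h3 : cnt R = ∑ x : V, ∑ y : V, (if R y x then 1 else 0 : ℤ) := Finset.sum_comm
    calc cnt R + cnt R = (∑ x : V, ∑ y : V, (if R x y then 1 else 0 : ℤ)) +
          ∑ x : V, ∑ y : V, (if R y x then 1 else 0 : ℤ) := by
          rw [← h3]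
          rfl
      _ = ∑ x : V, ∑ y : V, ((if R x y then 1 else 0 : ℤ) + (if R y x then 1 else 0)) := by
          rw [← Finset.sum_add_distrib]
          exact Finset.sum_congr rfl fun x _ => (Finset.sum_add_distrib).symm
      _ ≤ _ := Finset.sum_le_sum fun x _ => Finset.sum_le_sum fun y _ => h1 x y
  simp only [Finset.sum_sub_distrib, Finset.sum_const, Finset.card_univ,
    nsmul_eq_mul, mul_one, Finset.sum_ite_eq, Finset.mem_univ, if_true] at h2
  linarith

/-- The inequality with a shift. -/
theorem shift_ge (h : Dom R M) (t : ℤ) :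
    cnt R + hubZ t (Fintype.card V) ≤ ∑ x, phiZ (∑ y, M x y + t) := by
  rcases lt_or_ge t (-(Fintype.card V : ℤ)) with h1 | h1
  · have h2 := hubZ_small (Fintype.card V) t h1.le
    have h3 := cnt_le h
    have h4 : ∑ x, phiZ (∑ y, M x y + t) = ∑ x : V, (-(∑ y, M x y) - t) := by
      refine Finset.sum_congr rfl fun x _ => ?_
      have h5 := row_le h x
      rw [phiZ_of_nonpos (by omega)]
      ring
    have h5 : ∑ x : V, (-(∑ y, M x y) - t) = -(Fintype.card V * t) := by
      rw [Finset.sum_sub_distrib, Finset.sum_neg_distrib, sum_rows h]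
      simp
    rw [h4, h5]
    nlinarith
  · rcases lt_or_ge (Fintype.card V : ℤ) t with h2 | h2
    · have h3 := hubZ_large (Fintype.card V) t h2.le
      have h3' := cnt_le h
      have h4 : ∑ x, phiZ (∑ y, M x y + t) = ∑ x : V, ((∑ y, M x y) + (t - 1)) := by
        refine Finset.sum_congr rfl fun x _ => ?_
        have h5 := le_row h x
        rw [phiZ_of_pos (by omega)]
        ring
      have h5 : ∑ x : V, ((∑ y, M x y) + (t - 1)) = Fintype.card V * (t - 1) := by
        rw [Finset.sum_add_distrib, sum_rows h]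
        simp
        ring
      rw [h4, h5]
      nlinarith
    · have h3 := hubZ_mid (Fintype.card V) t h1 h2
      rcases le_or_gt 0 t with h4 | h4
      · obtain ⟨k, rfl⟩ := Int.eq_ofNat_of_zero_le h4
        have h5 := shift_up h k (by exact_mod_cast h2)
        linarith
      · obtain ⟨k, hk⟩ := Int.eq_ofNat_of_zero_le (show 0 ≤ -t by omega)
        have h5 := shift_down h k (by
          have : (k : ℤ) ≤ Fintype.card V := by rw [← hk]; omega
          exact_mod_cast this)
        have h6 : t = -(k : ℤ) := by omega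
        subst h6
        have h7 : ∀ x : V, ∑ y, M x y + -(k : ℤ) = ∑ y, M x y - k := fun x => by ring
        simp only [h7]
        nlinarith

end

end Pool.Agent.Helper3.Thom
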